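import Pool.Agent.Helper8.DP2.Defs

set_option autoImplicit false

/-!
DQ-C6l, DQ-C3l: witnesses at the prime 311.
-/

namespace Pool.Agent.Helper8.DP2

namespace Low311

/-- the squares modulo 311 as a bit mask -/
def mask : ℕ := 2078324295002967906675417127137446608237556201913708522805967218795826856807595375343302655

theorem mask_nat : ∀ a < 311, Nat.testBit mask a = (List.range 311).any (fun r => r * r % 311 == a) := by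
  decide +kernel

instance fact311 : Fact (Nat.Prime 311) := ⟨by norm_num⟩

theorem mask_spec (a : ZMod 311) : IsSquare a ↔ Nat.testBit mask a.val = true := by
  rw [mask_nat a.val (ZMod.val_lt a), List.any_eq_true]
  constructor
  · rintro ⟨r, hr⟩
    refine ⟨r.val, List.mem_range.2 (ZMod.val_lt r), ?_⟩
    rw [hr, ZMod.val_mul]
    simp
  · rintro ⟨r, _, hr⟩
    have h1 : r * r % 311 = a.val := by simpa using hr
    refine ⟨(r : ZMod 311), ?_⟩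
    have h2 : ((r * r % 311 : ℕ) : ZMod 311) = ((a.val : ℕ) : ZMod 311) := by rw [h1]
    rw [ZMod.natCast_mod, ZMod.natCast_zmod_val] at h2
    rw [← h2]
    push_cast
    ring

/-- the reduced entry over the integers -/
def redI (m n X Y Z : ℤ) (i : Fin 7) : ℤ :=
  if lin m n X Y Z i % 311 = 0 then -com m n X Y Z i else lin m n X Y Z i

/-- the quadratic character of an integer modulo 311 -/
def chi (a : ℤ) : ZMod 2 := if Nat.testBit mask (a % 311).toNat = true then 0 else 1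

theorem isSquare_int_iff (a : ℤ) :
    IsSquare ((a : ℤ) : ZMod 311) ↔ Nat.testBit mask (a % 311).toNat = true := by
  rw [mask_spec]
  have h : ((a : ℤ) : ZMod 311).val = (a % 311).toNat := by
    have h1 := ZMod.val_intCast (n := 311) a
    have h2 := Int.toNat_natCast ((a : ℤ) : ZMod 311).val
    rw [h1] at h2
    exact h2.symm
  rw [h]

theorem lin_cast (m n X Y Z : ℤ) (i : Fin 7) :
    lin m n (X : ZMod 311) (Y : ZMod 311) (Z : ZMod 311) i = ((lin m n X Y Z i : ℤ) : ZMod 311) := by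
  fin_cases i <;> simp [lin]

theorem com_cast (m n X Y Z : ℤ) (i : Fin 7) :
    com m n (X : ZMod 311) (Y : ZMod 311) (Z : ZMod 311) i = ((com m n X Y Z i : ℤ) : ZMod 311) := by
  fin_cases i <;> simp [com, kap]

theorem cls_eq (m n X Y Z : ℤ) (i : Fin 7) :
    cls m n (X : ZMod 311) (Y : ZMod 311) (Z : ZMod 311) i = chi (redI m n X Y Z i) := by
  have h1 : red m n (X : ZMod 311) (Y : ZMod 311) (Z : ZMod 311) i =
      ((redI m n X Y Z i : ℤ) : ZMod 311) := by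
    rw [red, redI, lin_cast, com_cast]
    have h2 : ((lin m n X Y Z i : ℤ) : ZMod 311) = 0 ↔ lin m n X Y Z i % 311 = 0 := by
      rw [ZMod.intCast_zmod_eq_zero_iff_dvd]
      exact Int.dvd_iff_emod_eq_zero
    by_cases h : lin m n X Y Z i % 311 = 0
    · rw [if_neg (not_not.2 (h2.2 h)), if_pos h]
      push_cast
      rfl
    · rw [if_pos (fun h3 => h (h2.1 h3)), if_neg h]
  rw [cls, h1, chi]
  by_cases h : IsSquare ((redI m n X Y Z i : ℤ) : ZMod 311)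
  · rw [if_pos h, if_pos ((isSquare_int_iff _).1 h)]
  · rw [if_neg h, if_neg (fun h2 => h ((isSquare_int_iff _).2 h2))]

/-- type of the table entries: witness, signs, target -/
abbrev Ent := (ℤ × ℤ × ℤ) × (ZMod 2 × ZMod 2 × ZMod 2) ×
  (ZMod 2 × ZMod 2 × ZMod 2 × ZMod 2 × ZMod 2 × ZMod 2)

/-- the entry of the vector at the witness -/
def vv (m n : ℤ) (e : Ent) (j : Fin 7) : ZMod 2 :=
  chi (redI m n e.1.1 e.1.2.1 e.1.2.2 j) + rvec e.2.1.1 e.2.1.2.1 e.2.1.2.2 j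

/-- the checked property of a table entry -/
def Ok (m n : ℤ) (e : Ent) : Prop :=
  F m n e.1.1 e.1.2.1 e.1.2.2 % 311 = 0 ∧
  (-(F m n e.1.1 e.1.2.1 e.1.2.2 / 311)) % 311 ≠ 0 ∧
  Nat.testBit mask ((-(F m n e.1.1 e.1.2.1 e.1.2.2 / 311)) % 311).toNat = true ∧
  (vv m n e 0 + vv m n e 6, vv m n e 1 + vv m n e 6, vv m n e 2 + vv m n e 6,
    vv m n e 3 + vv m n e 6, vv m n e 4 + vv m n e 6, vv m n e 5 + vv m n e 6) = e.2.2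

instance (m n : ℤ) (e : Ent) : Decidable (Ok m n e) := by
  unfold Ok
  infer_instance

theorem of_ok {m n : ℤ} {e : Ent} (h : Ok m n e) (v : Fin 7 → ZMod 2)
    (hv : e.2.2 = (v 0 + v 6, v 1 + v 6, v 2 + v 6, v 3 + v 6, v 4 + v 6, v 5 + v 6)) :
    ∃ X Y Z g : ℤ, F m n X Y Z = 311 * g ∧ (((-1) * g : ℤ) : ZMod 311) ≠ 0 ∧
      IsSquare (((-1) * g : ℤ) : ZMod 311) ∧ ∃ a b c t : ZMod 2, ∀ j : Fin 7,
      cls m n (X : ZMod 311) (Y : ZMod 311) (Z : ZMod 311) j + rvec a b c j = v j + t := by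
  obtain ⟨h1, h2, h3, h4⟩ := h
  refine ⟨e.1.1, e.1.2.1, e.1.2.2, F m n e.1.1 e.1.2.1 e.1.2.2 / 311, ?_, ?_, ?_,
    e.2.1.1, e.2.1.2.1, e.2.1.2.2, v 6 + vv m n e 6, ?_⟩
  · exact (Int.mul_ediv_cancel' (Int.dvd_of_emod_eq_zero h1)).symm
  · rw [neg_one_mul]
    intro h5
    rw [ZMod.intCast_zmod_eq_zero_iff_dvd] at h5
    exact h2 (Int.emod_eq_zero_of_dvd h5)
  · rw [neg_one_mul]
    exact (isSquare_int_iff _).2 h3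
  · rw [hv] at h4
    simp only [Prod.mk.injEq] at h4
    obtain ⟨k0, k1, k2, k3, k4, k5⟩ := h4
    have key : ∀ a b c d : ZMod 2, a + b = c + d → a = c + (d + b) := by decide
    have key2 : ∀ a b : ZMod 2, a = b + (b + a) := by decide
    intro j
    rw [cls_eq]
    show vv m n e j = v j + (v 6 + vv m n e 6)
    fin_cases j
    · exact key _ _ _ _ k0
    · exact key _ _ _ _ k1
    · exact key _ _ _ _ k2
    · exact key _ _ _ _ k3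
    · exact key _ _ _ _ k4
    · exact key _ _ _ _ k5
    · exact key2 _ _

/-- table for `(m,n) = (3,1)` -/
def tab31 : List Ent :=
  [((14, 59, -56), (0, 0, 0), (1, 0, 0, 0, 0, 0)),
   ((25, 2, -26), (0, 0, 0), (0, 1, 0, 0, 0, 0)),
   ((27, -28, -12), (0, 0, 0), (1, 1, 0, 0, 0, 0)),
   ((14, -56, -59), (0, 0, 0), (0, 0, 1, 0, 0, 0)),
   ((27, 28, -12), (0, 0, 0), (1, 0, 1, 0, 0, 0)),
   ((17, -20, -17), (0, 0, 1), (0, 1, 1, 0, 0, 0)),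
   ((14, -56, 59), (0, 0, 1), (1, 1, 1, 0, 0, 0)),
   ((2, -25, -26), (0, 0, 0), (0, 0, 0, 1, 0, 0)),
   ((6, -8, -23), (0, 0, 0), (1, 0, 0, 1, 0, 0)),
   ((12, -28, -27), (0, 0, 0), (0, 1, 0, 1, 0, 0)),
   ((59, -56, -14), (0, 0, 0), (1, 1, 0, 1, 0, 0)),
   ((12, -27, 28), (0, 0, 0), (0, 0, 1, 1, 0, 0)),
   ((2, 26, -25), (0, 0, 0), (1, 0, 1, 1, 0, 0)),
   ((1, -45, 11), (0, 0, 0), (0, 1, 1, 1, 0, 0)),
   ((6, 8, -23), (0, 0, 0), (1, 1, 1, 1, 0, 0)),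
   ((59, -56, 14), (0, 0, 0), (0, 0, 0, 0, 1, 0)),
   ((27, 12, 28), (0, 0, 0), (1, 0, 0, 0, 1, 0)),
   ((8, -6, 23), (0, 0, 0), (0, 1, 0, 0, 1, 0)),
   ((2, -25, 26), (0, 0, 0), (1, 1, 0, 0, 1, 0)),
   ((12, -27, -28), (0, 0, 0), (0, 0, 1, 0, 1, 0)),
   ((2, 26, -25), (0, 0, 1), (1, 0, 1, 0, 1, 0)),
   ((14, 56, 59), (0, 0, 0), (0, 1, 1, 0, 1, 0)),
   ((6, 8, 23), (0, 0, 0), (1, 1, 1, 0, 1, 0)),
   ((17, -20, -17), (0, 1, 0), (0, 0, 0, 1, 1, 0)),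
   ((59, 14, 56), (0, 0, 0), (1, 0, 0, 1, 1, 0)),
   ((2, 25, 26), (0, 0, 0), (0, 1, 0, 1, 1, 0)),
   ((27, -28, 12), (0, 0, 0), (1, 1, 0, 1, 1, 0)),
   ((14, -56, -59), (0, 0, 1), (0, 0, 1, 1, 1, 0)),
   ((6, 23, -8), (0, 0, 0), (1, 0, 1, 1, 1, 0)),
   ((17, -20, -17), (0, 0, 0), (0, 1, 1, 1, 1, 0)),
   ((14, -56, 59), (0, 0, 0), (1, 1, 1, 1, 1, 0)),
   ((2, -26, 25), (0, 0, 0), (0, 0, 0, 0, 0, 1)),
   ((17, -20, 17), (0, 0, 1), (1, 0, 0, 0, 0, 1)),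
   ((27, 28, 12), (0, 0, 0), (0, 1, 0, 0, 0, 1)),
   ((1, 11, -45), (0, 0, 0), (1, 1, 0, 0, 0, 1)),
   ((6, -23, -8), (0, 0, 0), (0, 0, 1, 0, 0, 1)),
   ((14, 59, 56), (0, 0, 0), (1, 0, 1, 0, 0, 1)),
   ((25, 2, 26), (0, 0, 0), (0, 1, 1, 0, 0, 1)),
   ((17, 17, -20), (0, 0, 0), (1, 1, 1, 0, 0, 1)),
   ((27, -12, 28), (0, 0, 0), (0, 0, 0, 1, 0, 1)),
   ((2, 26, 25), (0, 0, 0), (1, 0, 0, 1, 0, 1)),
   ((1, -45, -11), (0, 0, 0), (0, 1, 0, 1, 0, 1)),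
   ((8, -23, -6), (0, 0, 0), (1, 1, 0, 1, 0, 1)),
   ((14, -59, 56), (0, 0, 0), (0, 0, 1, 1, 0, 1)),
   ((12, -28, 27), (0, 0, 0), (1, 0, 1, 1, 0, 1)),
   ((6, -8, 23), (0, 0, 0), (0, 1, 1, 1, 0, 1)),
   ((25, -26, 2), (0, 0, 0), (1, 1, 1, 1, 0, 1)),
   ((27, -12, -28), (0, 0, 0), (0, 0, 0, 0, 1, 1)),
   ((2, 26, 25), (0, 0, 1), (1, 0, 0, 0, 1, 1)),
   ((14, 56, -59), (0, 0, 0), (0, 1, 0, 0, 1, 1)),
   ((8, -23, 6), (0, 0, 0), (1, 1, 0, 0, 1, 1)),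
   ((25, -26, -2), (0, 0, 0), (0, 0, 1, 0, 1, 1)),
   ((8, -6, -23), (0, 0, 0), (1, 0, 1, 0, 1, 1)),
   ((27, 12, -28), (0, 0, 0), (0, 1, 1, 0, 1, 1)),
   ((14, -59, -56), (0, 0, 0), (1, 1, 1, 0, 1, 1)),
   ((1, 11, 45), (0, 0, 0), (0, 0, 0, 1, 1, 1)),
   ((17, -20, 17), (0, 0, 0), (1, 0, 0, 1, 1, 1)),
   ((6, 23, 8), (0, 0, 0), (0, 1, 0, 1, 1, 1)),
   ((2, -26, -25), (0, 0, 0), (1, 1, 0, 1, 1, 1)),
   ((6, -23, 8), (0, 0, 0), (0, 0, 1, 1, 1, 1)),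
   ((59, 14, -56), (0, 0, 0), (1, 0, 1, 1, 1, 1)),
   ((2, 25, -26), (0, 0, 0), (0, 1, 1, 1, 1, 1)),
   ((17, 17, 20), (0, 0, 0), (1, 1, 1, 1, 1, 1))]

/-- table for `(m,n) = (7,2)` -/
def tab72 : List Ent :=
  [((1, 13, 15), (0, 0, 0), (1, 0, 0, 0, 0, 0)),
   ((24, -7, -9), (0, 0, 0), (0, 1, 0, 0, 0, 0)),
   ((7, 7, -3), (0, 0, 0), (1, 1, 0, 0, 0, 0)),
   ((1, 15, -13), (0, 0, 0), (0, 0, 1, 0, 0, 0)),
   ((7, -7, -3), (0, 0, 0), (1, 0, 1, 0, 0, 0)),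
   ((5, -11, 41), (0, 0, 0), (1, 1, 1, 0, 0, 0)),
   ((7, 24, 9), (0, 0, 0), (0, 0, 0, 1, 0, 0)),
   ((21, 7, 36), (0, 0, 0), (1, 0, 0, 1, 0, 0)),
   ((3, 7, -7), (0, 0, 0), (0, 1, 0, 1, 0, 0)),
   ((13, -1, 15), (0, 0, 0), (1, 1, 0, 1, 0, 0)),
   ((3, -7, -7), (0, 0, 0), (0, 0, 1, 1, 0, 0)),
   ((7, -9, 24), (0, 0, 0), (1, 0, 1, 1, 0, 0)),
   ((1, -15, 13), (0, 0, 1), (0, 1, 1, 1, 0, 0)),
   ((21, -7, 36), (0, 0, 0), (1, 1, 1, 1, 0, 0)),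
   ((13, -1, -15), (0, 0, 0), (0, 0, 0, 0, 1, 0)),
   ((7, 3, -7), (0, 0, 0), (1, 0, 0, 0, 1, 0)),
   ((7, 21, 36), (0, 0, 0), (0, 1, 0, 0, 1, 0)),
   ((7, 24, -9), (0, 0, 0), (1, 1, 0, 0, 1, 0)),
   ((3, -7, 7), (0, 0, 0), (0, 0, 1, 0, 1, 0)),
   ((5, -41, 11), (0, 0, 0), (1, 0, 1, 0, 1, 0)),
   ((1, -15, 13), (0, 0, 0), (0, 1, 1, 0, 1, 0)),
   ((21, -7, -36), (0, 0, 0), (1, 1, 1, 0, 1, 0)),
   ((13, -15, 1), (0, 0, 0), (1, 0, 0, 1, 1, 0)),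
   ((7, -24, -9), (0, 0, 0), (0, 1, 0, 1, 1, 0)),
   ((7, 7, 3), (0, 0, 0), (1, 1, 0, 1, 1, 0)),
   ((5, -11, -41), (0, 0, 0), (0, 0, 1, 1, 1, 0)),
   ((21, -36, 7), (0, 0, 0), (1, 0, 1, 1, 1, 0)),
   ((1, 15, 13), (0, 0, 0), (1, 1, 1, 1, 1, 0)),
   ((7, 9, -24), (0, 0, 0), (0, 0, 0, 0, 0, 1)),
   ((7, -7, 3), (0, 0, 0), (0, 1, 0, 0, 0, 1)),
   ((7, 9, 24), (0, 0, 1), (1, 1, 0, 0, 0, 1)),
   ((21, 36, 7), (0, 0, 0), (0, 0, 1, 0, 0, 1)),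
   ((1, 13, -15), (0, 0, 0), (1, 0, 1, 0, 0, 1)),
   ((24, -7, 9), (0, 0, 0), (0, 1, 1, 0, 0, 1)),
   ((7, -3, -7), (0, 0, 0), (0, 0, 0, 1, 0, 1)),
   ((7, -9, -24), (0, 0, 0), (1, 0, 0, 1, 0, 1)),
   ((1, -15, -13), (0, 0, 1), (0, 1, 0, 1, 0, 1)),
   ((7, -36, 21), (0, 0, 0), (1, 1, 0, 1, 0, 1)),
   ((1, -13, -15), (0, 0, 0), (0, 0, 1, 1, 0, 1)),
   ((3, 7, 7), (0, 0, 0), (1, 0, 1, 1, 0, 1)),
   ((21, 7, -36), (0, 0, 0), (0, 1, 1, 1, 0, 1)),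
   ((24, -9, -7), (0, 0, 0), (1, 1, 1, 1, 0, 1)),
   ((7, -3, 7), (0, 0, 0), (0, 0, 0, 0, 1, 1)),
   ((5, -41, -11), (0, 0, 0), (1, 0, 0, 0, 1, 1)),
   ((1, -15, -13), (0, 0, 0), (0, 1, 0, 0, 1, 1)),
   ((7, -36, -21), (0, 0, 0), (1, 1, 0, 0, 1, 1)),
   ((24, -9, 7), (0, 0, 0), (0, 0, 1, 0, 1, 1)),
   ((7, 21, -36), (0, 0, 0), (1, 0, 1, 0, 1, 1)),
   ((7, 3, 7), (0, 0, 0), (0, 1, 1, 0, 1, 1)),
   ((1, -13, 15), (0, 0, 0), (1, 1, 1, 0, 1, 1)),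
   ((7, 9, -24), (0, 0, 1), (0, 0, 0, 1, 1, 1)),
   ((21, -36, -7), (0, 0, 0), (0, 1, 0, 1, 1, 1)),
   ((7, 9, 24), (0, 0, 0), (1, 1, 0, 1, 1, 1)),
   ((21, 36, -7), (0, 0, 0), (0, 0, 1, 1, 1, 1)),
   ((13, -15, -1), (0, 0, 0), (1, 0, 1, 1, 1, 1)),
   ((7, -24, 9), (0, 0, 0), (0, 1, 1, 1, 1, 1))]

theorem tab31_ok : ∀ e ∈ tab31, Ok 3 1 e := by
  decide +kernel

theorem tab72_ok : ∀ e ∈ tab72, Ok 7 2 e := by
  decide +kernel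

theorem tab31_all' : ∀ x : ZMod 2 × ZMod 2 × ZMod 2 × ZMod 2 × ZMod 2 × ZMod 2,
    x ≠ (0, 0, 0, 0, 0, 0) → (tab31.map (fun x => x.2.2)).contains x = true := by
  decide +kernel

theorem tab31_all (a b c d e f : ZMod 2)
    (h : ¬(a = 0 ∧ b = 0 ∧ c = 0 ∧ d = 0 ∧ e = 0 ∧ f = 0)) :
    (a, b, c, d, e, f) ∈ tab31.map (fun x => x.2.2) := by
  have h1 := tab31_all' (a, b, c, d, e, f) (by
    intro hcon
    simp only [Prod.mk.injEq] at hcon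
    exact h hcon)
  exact List.contains_iff_mem.1 h1

theorem tab72_all' : ∀ x : ZMod 2 × ZMod 2 × ZMod 2 × ZMod 2 × ZMod 2 × ZMod 2,
    ¬(x.2.2.2.1 = x.2.2.2.2.1 ∧ x.2.1 = x.2.2.1 ∧ x.1 = x.2.2.2.2.2) →
      (tab72.map (fun x => x.2.2)).contains x = true := by
  decide +kernel

theorem tab72_all (a b c d e f : ZMod 2) (h : ¬(d = e ∧ b = c ∧ a = f)) :
    (a, b, c, d, e, f) ∈ tab72.map (fun x => x.2.2) :=
  List.contains_iff_mem.1 (tab72_all' (a, b, c, d, e, f) h)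

end Low311

open Low311

theorem c6_lower (v : Fin 7 → ZMod 2) (hv : ∃ j, v j ≠ v 6) :
    ∃ X Y Z g : ℤ, F 3 1 X Y Z = 311 * g ∧ (((-1) * g : ℤ) : ZMod 311) ≠ 0 ∧
      IsSquare (((-1) * g : ℤ) : ZMod 311) ∧ ∃ a b c t : ZMod 2, ∀ j : Fin 7,
      cls 3 1 (X : ZMod 311) (Y : ZMod 311) (Z : ZMod 311) j + rvec a b c j = v j + t := by
  have key : ∀ a b : ZMod 2, a + b = 0 → a = b := by decide
  have h := tab31_all (v 0 + v 6) (v 1 + v 6) (v 2 + v 6) (v 3 + v 6) (v 4 + v 6) (v 5 + v 6) (by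
    rintro ⟨h0, h1, h2, h3, h4, h5⟩
    obtain ⟨j, hj⟩ := hv
    apply hj
    fin_cases j
    · exact key _ _ h0
    · exact key _ _ h1
    · exact key _ _ h2
    · exact key _ _ h3
    · exact key _ _ h4
    · exact key _ _ h5
    · rfl)
  obtain ⟨e, he, he2⟩ := List.mem_map.1 h
  exact of_ok (tab31_ok e he) v he2

theorem c3_lower (v : Fin 7 → ZMod 2) (hv : ¬ (v 3 = v 4 ∧ v 1 = v 2 ∧ v 0 = v 5)) :
    ∃ X Y Z g : ℤ, F 7 2 X Y Z = 311 * g ∧ (((-1) * g : ℤ) : ZMod 311) ≠ 0 ∧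
      IsSquare (((-1) * g : ℤ) : ZMod 311) ∧ ∃ a b c t : ZMod 2, ∀ j : Fin 7,
      cls 7 2 (X : ZMod 311) (Y : ZMod 311) (Z : ZMod 311) j + rvec a b c j = v j + t := by
  have h := tab72_all (v 0 + v 6) (v 1 + v 6) (v 2 + v 6) (v 3 + v 6) (v 4 + v 6) (v 5 + v 6) (by
    rintro ⟨h0, h1, h2⟩
    exact hv ⟨add_right_cancel h0, add_right_cancel h1, add_right_cancel h2⟩)
  obtain ⟨e, he, he2⟩ := List.mem_map.1 h
  exact of_ok (tab72_ok e he) v he2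

end Pool.Agent.Helper8.DP2
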